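import Pool.Agent.Helper40.CN.Spec

/-!
# CN, part FIN: the set of values is finite
-/

set_option autoImplicit false

namespace Pool.Agent.Helper91.CN

universe u

open Pool.Agent.Helper40.CN Cardinal

/-- word maps are continuous -/
theorem continuous_lift {k : ℕ} {G : Type u} [Group G] [TopologicalSpace G] [IsTopologicalGroup G]
    (w : FreeGroup (Fin k)) : Continuous fun g : Fin k → G => FreeGroup.lift g w := by
  induction w using FreeGroup.induction_on with
  | C1 =>
    have : (fun g : Fin k → G => FreeGroup.lift g (1 : FreeGroup (Fin k))) = fun _ => 1 := by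
      funext g
      exact map_one _
    rw [this]
    exact continuous_const
  | of i =>
    have : (fun g : Fin k → G => FreeGroup.lift g (FreeGroup.of i)) = fun g => g i := by
      funext g
      exact FreeGroup.lift_apply_of
    rw [this]
    exact continuous_apply i
  | inv_of i hi =>
    have : (fun g : Fin k → G => FreeGroup.lift g (FreeGroup.of i)⁻¹) =
        fun g => (FreeGroup.lift g (FreeGroup.of i))⁻¹ := by
      funext g
      exact map_inv _ _
    rw [this]
    exact hi.inv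
  | mul x y hx hy =>
    have : (fun g : Fin k → G => FreeGroup.lift g (x * y)) =
        fun g => FreeGroup.lift g x * FreeGroup.lift g y := by
      funext g
      exact map_mul _ _ _
    rw [this]
    exact hx.mul hy

/-- finiteness on the cosets of an open subgroup implies finiteness -/
theorem fin_of_cosets {k : ℕ} {G Z : Type u} [Group G] [TopologicalSpace G]
    [IsTopologicalGroup G] [CompactSpace G] (U : Subgroup G) (hU : IsOpen (U : Set G))
    (f : (Fin k → G) → Z)
    (h : ∀ g : Fin k → G, (Set.range fun u : Fin k → U => f (fun i => g i * (u i : G))).Finite) :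
    (Set.range f).Finite := by
  classical
  have hfin : Finite (G ⧸ U) := Subgroup.quotient_finite_of_isOpen U hU
  have h1 : Set.range f ⊆ ⋃ q : Fin k → G ⧸ U,
      Set.range fun u : Fin k → U => f (fun i => (q i).out * (u i : G)) := by
    rintro _ ⟨g, rfl⟩
    refine Set.mem_iUnion.2 ⟨fun i => (g i : G ⧸ U), ?_⟩
    have h2 : ∀ i, ((g i : G ⧸ U)).out⁻¹ * g i ∈ U := by
      intro i
      exact QuotientGroup.eq.1 (QuotientGroup.out_eq' (g i : G ⧸ U))
    refine ⟨fun i => ⟨_, h2 i⟩, ?_⟩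
    show f _ = f g
    congr 1
    funext i
    show ((g i : G ⧸ U)).out * (((g i : G ⧸ U)).out⁻¹ * g i) = g i
    rw [mul_inv_cancel_left]
  exact (Set.finite_iUnion fun q => h _).subset h1

theorem FF_mono {G : Type u} [Group G] (N : Subgroup G) {k : ℕ} {M : Type u} [AddCommGroup M]
    [DistribMulAction G M] (m : G → M) {S1 S0 T1 T0 : Set ((Fin k → N) → G)} (h1 : S1 ⊆ T1)
    (h0 : S0 ⊆ T0) : FF N m S1 S0 ≤ FF N m T1 T0 := by
  refine AddSubgroup.closure_mono ?_
  rintro f (⟨ψ, hψ, i, rfl⟩ | ⟨ψ, hψ, b, rfl⟩)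
  · exact Or.inl ⟨ψ, h1 hψ, i, rfl⟩
  · exact Or.inr ⟨ψ, h0 hψ, b, rfl⟩

/-- multiplication by a constant -/
theorem FF_smul {G : Type u} [Group G] (N : Subgroup G) {k : ℕ} {M : Type u} [AddCommGroup M]
    [DistribMulAction G M] (m : G → M) (S1 S0 : Set ((Fin k → N) → G)) (c : G)
    (f : (Fin k → N) → M) (hf : f ∈ FF N m S1 S0) :
    (fun u => c⁻¹ • f u) ∈ FF N m (tr (fun _ => c) S1) (tr (fun _ => c) S0) := by
  induction hf using AddSubgroup.closure_induction with
  | mem f hf =>
    rcases hf with ⟨ψ, hψ, i, rfl⟩ | ⟨ψ, hψ, b, rfl⟩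
    · refine AddSubgroup.subset_closure (Or.inl ⟨_, ⟨ψ, hψ, rfl⟩, i, ?_⟩)
      funext u
      show c⁻¹ • ψ u • m (u i) = (c⁻¹ * ψ u) • m (u i)
      rw [mul_smul]
    · refine AddSubgroup.subset_closure (Or.inr ⟨_, ⟨ψ, hψ, rfl⟩, b, ?_⟩)
      funext u
      show c⁻¹ • ψ u • b = (c⁻¹ * ψ u) • b
      rw [mul_smul]
  | zero =>
    have : (fun u : Fin k → N => c⁻¹ • (0 : (Fin k → N) → M) u) = 0 := by
      funext u
      exact smul_zero _
    rw [this]
    exact AddSubgroup.zero_mem _
  | add f g _ _ hf hg =>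
    have : (fun u : Fin k → N => c⁻¹ • (f + g) u) = (fun u => c⁻¹ • f u) + fun u => c⁻¹ • g u := by
      funext u
      exact smul_add _ _ _
    rw [this]
    exact AddSubgroup.add_mem _ hf hg
  | neg f _ hf =>
    have : (fun u : Fin k → N => c⁻¹ • (-f) u) = -(fun u => c⁻¹ • f u) := by
      funext u
      exact smul_neg _ _
    rw [this]
    exact AddSubgroup.neg_mem _ hf

theorem fin (hCHAIN : S_CHAIN.{u}) (hT1 : S_T1.{u}) (hWX : S_WX.{u}) (hUNI : S_UNI.{u})
    (hKK : S_KK.{u}) (hFCC : S_FCC.{u}) (hPET : S_PET.{u}) : S_FIN.{u} := by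
  intro G _ _ _ _ _ _ A N _ _ hA hN hab hnil k w hsmall
  obtain ⟨M, iM, iD, m, hm⟩ := hKK G A hab
  obtain ⟨F, hF⟩ : ∃ F : (Fin k → G) → G, F = fun g => FreeGroup.lift g w := ⟨_, rfl⟩
  have hFc : Continuous F := by rw [hF]; exact continuous_lift w
  have hFr : Set.range F = wordValues w G := by rw [hF]; rfl
  have hFv : ∀ g, F g ∈ wordValues w G := fun g => hFr ▸ Set.mem_range_self g
  -- first step
  obtain ⟨D, Q, hQ⟩ := hCHAIN G A N k hnil
  have h1 : (Set.range fun g : Fin k → G => (QuotientGroup.mk (F g) : G ⧸ A)).Finite := by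
    refine fin_of_cosets N hN _ fun g => ?_
    have h2 := (hWX G A N k (Q D) hQ.const hQ.coord M m hm w g).1
    have h3 := hT1 G A N hN hA k D Q hQ D _ h2
    have h4 : (fun u : Fin k → N => (QuotientGroup.mk (FreeGroup.lift (fun i => g i * (u i : G)) w) :
        G ⧸ A)) = fun u => (QuotientGroup.mk (F (fun i => g i * (u i : G))) : G ⧸ A) := by
      rw [hF]
    rw [h4] at h3
    refine h3 (lt_of_le_of_lt ?_ hsmall)
    have h5 : (Set.range fun u : Fin k → N =>
        (QuotientGroup.mk (F (fun i => g i * (u i : G))) : G ⧸ A)) ⊆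
        (fun x : G => (QuotientGroup.mk x : G ⧸ A)) '' wordValues w G := by
      rintro _ ⟨u, rfl⟩
      exact ⟨_, hFv _, rfl⟩
    exact (Cardinal.mk_le_mk_of_subset h5).trans Cardinal.mk_image_le
  have hA' : IsClosed (A : Set G) := hA
  have hT3 : T3Space (G ⧸ A) := QuotientGroup.instT3Space A
  have hT2 : T2Space (G ⧸ A) := inferInstance
  obtain ⟨U1, hU1n, hU1o, hU1⟩ := @hUNI G _ _ _ _ _ _ k (G ⧸ A)
    (QuotientGroup.instTopologicalSpace A) hT2 (fun g => (QuotientGroup.mk (F g) : G ⧸ A))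
    (continuous_quot_mk.comp hFc) h1
  obtain ⟨U, hUd⟩ : ∃ U : Subgroup G, U = U1 ⊓ N := ⟨_, rfl⟩
  have hUn : U.Normal := by rw [hUd]; infer_instance
  have hUo : IsOpen (U : Set G) := by
    rw [hUd, Subgroup.coe_inf]
    exact hU1o.inter hN
  have hnilU : Group.IsNilpotent (U.map (QuotientGroup.mk' A)) := by
    have hle : U.map (QuotientGroup.mk' A) ≤ N.map (QuotientGroup.mk' A) :=
      Subgroup.map_mono (hUd ▸ inf_le_right)
    have h2 : Group.IsNilpotent
        ((U.map (QuotientGroup.mk' A)).subgroupOf (N.map (QuotientGroup.mk' A))) := inferInstance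
    exact (Group.isNilpotent_congr (Subgroup.subgroupOfEquivOfLe hle)).1 h2
  obtain ⟨D', Q', hQ'⟩ := hCHAIN G A U k hnilU
  rw [← hFr]
  refine fin_of_cosets U hUo F fun g => ?_
  obtain ⟨-, S1, S0, hS1, hS0, hS1Q, hS0Q, hFF⟩ :=
    hWX G A U k (Q' D') hQ'.const hQ'.coord M m hm w g
  obtain ⟨E, hE⟩ : ∃ E : (Fin k → U) → G, E = fun u => (F g)⁻¹ * F (fun i => g i * (u i : G)) :=
    ⟨_, rfl⟩
  have hEu : ∀ u, E u = (F g)⁻¹ * F (fun i => g i * (u i : G)) := fun u => by rw [hE]
  have hEc : Continuous E := by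
    rw [hE]
    refine continuous_const.mul (hFc.comp ?_)
    exact continuous_pi fun i => continuous_const.mul
      (continuous_subtype_val.comp (continuous_apply i))
  have hEA : ∀ u, E u ∈ A := by
    intro u
    rw [hEu]
    have hle : U ≤ U1 := by rw [hUd]; exact inf_le_left
    have h2 := hU1 g (fun i => (u i : G)) (fun i => hle (u i).2)
    exact QuotientGroup.eq.1 h2.symm
  have hEf : ∀ u, (Set.range fun x : G => x * E u * x⁻¹).Finite := by
    intro u
    have h2 := hFCC G k w hsmall (F g) (hFv g)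
    have h3 := hFCC G k w hsmall (F (fun i => g i * (u i : G))) (hFv _)
    refine ((h2.prod h3).image fun p : G × G => p.1⁻¹ * p.2).subset ?_
    rintro _ ⟨x, rfl⟩
    refine ⟨(x * F g * x⁻¹, x * F (fun i => g i * (u i : G)) * x⁻¹),
      ⟨⟨x, rfl⟩, ⟨x, rfl⟩⟩, ?_⟩
    show (x * F g * x⁻¹)⁻¹ * (x * F (fun i => g i * (u i : G)) * x⁻¹) = x * E u * x⁻¹
    rw [hEu]
    group
  have hEs : Cardinal.mk (Set.range E) < Cardinal.continuum := by
    have h2 : Set.range E ⊆ (fun x => (F g)⁻¹ * x) '' wordValues w G := by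
      rintro _ ⟨u, rfl⟩
      rw [hEu]
      exact ⟨_, hFv _, rfl⟩
    exact lt_of_le_of_lt ((Cardinal.mk_le_mk_of_subset h2).trans Cardinal.mk_image_le) hsmall
  have hmE : (fun u => m (E u)) ∈ FF U m (tr (fun _ => F g) S1)
      (tr (fun _ => F g) S0 ∪ {fun _ => (1 : G)}) := by
    have h2 : (fun u => m (E u)) = (fun u : Fin k → U => (1 : G) • m (F g)⁻¹) +
        fun u : Fin k → U => (F g)⁻¹ • m (F (fun i => g i * (u i : G))) := by
      funext u
      show m (E u) = (1 : G) • m (F g)⁻¹ + (F g)⁻¹ • m (F (fun i => g i * (u i : G)))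
      rw [hEu, hm.der, one_smul]
    rw [h2]
    refine AddSubgroup.add_mem _ ?_ ?_
    · exact AddSubgroup.subset_closure (Or.inr ⟨fun _ => 1, Or.inr rfl, m (F g)⁻¹, rfl⟩)
    · refine FF_mono U m (subset_refl _) Set.subset_union_left ?_
      refine FF_smul U m S1 S0 (F g) (fun u => m (F (fun i => g i * (u i : G)))) ?_
      rw [hF]
      exact hFF
  have htr : ∀ S : Set ((Fin k → U) → G), S ⊆ Q' D' → tr (fun _ => F g) S ⊆ Q' D' := by
    rintro S hS _ ⟨φ, hφ, rfl⟩
    exact (Q' D').mul_mem ((Q' D').inv_mem (hQ'.const (F g))) (hS hφ)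
  have hEfin := hPET G A U hUo hab k D' Q' hQ' M m hm (tr (fun _ => F g) S1)
    (tr (fun _ => F g) S0 ∪ {fun _ => (1 : G)}) (hS1.image _)
    ((hS0.image _).union (Set.finite_singleton _)) (htr _ hS1Q)
    (Set.union_subset (htr _ hS0Q) (Set.singleton_subset_iff.2 (hQ'.const 1)))
    E hEc hEA hEf hEs hmE
  refine (hEfin.image fun x => F g * x).subset ?_
  rintro _ ⟨u, rfl⟩
  refine ⟨E u, ⟨u, rfl⟩, ?_⟩
  show F g * E u = F (fun i => g i * (u i : G))
  rw [hEu, mul_inv_cancel_left]

end Pool.Agent.Helper91.CN
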