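import Pool.Agent.Helper40.CN.Spec

/-!
# CN, part T1: the virtually nilpotent case
-/

set_option autoImplicit false

namespace Pool.Agent.Helper91.CN

universe u

open Pool.Agent.Helper40.CN Cardinal

/-- the set of the differences of a small set is small -/
theorem small_diff {X Y : Type u} [Group Y] (E : X → Y) (τ : X → X)
    (h : Cardinal.mk (Set.range E) < Cardinal.continuum) :
    Cardinal.mk (Set.range fun x => (E x)⁻¹ * E (τ x)) < Cardinal.continuum := by
  have h1 : (Set.range fun x => (E x)⁻¹ * E (τ x)) ⊆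
      Set.range (fun p : Set.range E × Set.range E => (p.1 : Y)⁻¹ * (p.2 : Y)) := by
    rintro _ ⟨x, rfl⟩
    exact ⟨(⟨E x, x, rfl⟩, ⟨E (τ x), τ x, rfl⟩), rfl⟩
  refine lt_of_le_of_lt (Cardinal.mk_le_mk_of_subset h1) (lt_of_le_of_lt Cardinal.mk_range_le ?_)
  rw [Cardinal.mk_prod, Cardinal.lift_id]
  exact Cardinal.mul_lt_of_lt Cardinal.aleph0_le_continuum h h

theorem t1 (hDIFF : S_DIFF.{u}) : S_T1.{u} := by
  intro G _ _ _ _ _ _ A N _ _ hN hA k D Q hQ j
  induction j with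
  | zero =>
    intro ψ hψ _
    refine Set.Subsingleton.finite ?_
    rintro _ ⟨x, rfl⟩ _ ⟨y, rfl⟩
    exact QuotientGroup.eq.2 (hQ.const0 ψ hψ x y)
  | succ j ih =>
    intro ψ hψ hs
    haveI : IsClosed (A : Set G) := hA
    haveI : CompactSpace N := isCompact_iff_compactSpace.1
      ((N.isClosed_of_isOpen hN).isCompact)
    have hc : Continuous fun u : Fin k → N => (QuotientGroup.mk (ψ u) : G ⧸ A) :=
      continuous_quot_mk.comp (hQ.cont _ ψ hψ)
    refine hDIFF (Fin k → N) (G ⧸ A) (fun u => (QuotientGroup.mk (ψ u) : G ⧸ A)) hc hs ?_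
    intro h
    have h1 := ih (ψ⁻¹ * shift h ψ) (hQ.diff j ψ hψ h)
    have h2 : (fun u => (QuotientGroup.mk ((ψ⁻¹ * shift h ψ) u) : G ⧸ A)) =
        fun u => (QuotientGroup.mk (ψ u) : G ⧸ A)⁻¹ * (QuotientGroup.mk (ψ (u * h)) : G ⧸ A) := by
      funext u
      rfl
    rw [h2] at h1
    exact h1 (small_diff (fun u => (QuotientGroup.mk (ψ u) : G ⧸ A)) (fun u => u * h) hs)

end Pool.Agent.Helper91.CN
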